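import Pool.Agent.Y131.LM.Seq

/-!
# Properties Z_m and Z coincide for closed normal subgroups of locally minimal precompact groups
-/

set_option autoImplicit false

open Pool.Agent.Y131.LM

namespace Pool.Agent.Results.MP_dc204c_gt.LocallyMinimal

/-- **Main theorem.**  (A) Let `G` be a Hausdorff topological group which is precompact and
locally minimal, and let `H` be a closed normal subgroup of `G` with property `Z_m`.  Then `H` is
topologically isomorphic to a subgroup of a unitary group `U(n)` (in particular it is metrizable)
and `H` has property `Z`; if `H` is pseudocompact, it is a compact Lie group.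
(B) Every precompact (in particular every pseudocompact) locally minimal Hausdorff group with
property `Z_m` has property `Z`.
(C) The question: every pseudocompact minimal Hausdorff group with property `Z_m` has
property `Z`. -/
theorem result :
    (∀ (G : Type) [Group G] [TopologicalSpace G] [IsTopologicalGroup G] [T2Space G],
      Precpt G → LocMin G → ∀ H : Subgroup G, H.Normal → IsClosed (H : Set G) → PropZm H →
        Linear H ∧ TopologicalSpace.MetrizableSpace H ∧ PropZ H ∧ (Pseudocpt H → CptLie H)) ∧
    (∀ (G : Type) [Group G] [TopologicalSpace G] [IsTopologicalGroup G] [T2Space G],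
      Precpt G → LocMin G → PropZm G → PropZ G) ∧
    (∀ (G : Type) [Group G] [TopologicalSpace G] [IsTopologicalGroup G] [T2Space G],
      Pseudocpt G → Minl G → PropZm G → PropZ G) := by
  refine ⟨?_, ?_, ?_⟩
  · intro G _ _ _ _ hP hm H hHn hH hZ
    have h := normal_linear hP hm H hHn hH hZ
    exact ⟨h, h.metrizable, h.propZ hZ, h.lie_ps⟩
  · intro G _ _ _ _ hP hm hZ
    exact (self_linear hP hm hZ).propZ hZ
  · intro G _ _ _ _ hps hmin hZ
    exact (self_linear (precpt_of_pseudo hps) (locMin_of_minl hmin) hZ).propZ hZ

end Pool.Agent.Results.MP_dc204c_gt.LocallyMinimal
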